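import Mathlib
import Pool.Agent.N741.HB.Stm4
import Pool.Agent.N741.HB.Mild

/-!
# Constant ratios in a minimal vanishing block, from constant ratios in a block whose sum is a
high power
-/

set_option autoImplicit false

namespace Pool.Agent.N323.HC

open Filter Pool.Agent.Y902.GN Pool.Agent.N741.HB Pool.Agent.N741.HC

theorem exists_c {m : ℕ} (i0 : Fin m) (F : Fin m → ℂ) (h : F i0 ≠ 0) :
    ∃ c : Fin (2 ^ m + 1), ∀ J : Finset (Fin m), ∑ i ∈ J, F i ≠ (((c : ℕ) : ℂ) + 1) * F i0 := by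
  by_contra hcon
  push Not at hcon
  choose J hJ using hcon
  have hinj : Function.Injective J := by
    intro c c' hcc
    have h1 := hJ c
    rw [hcc, hJ c'] at h1
    have h2 := mul_right_cancel₀ h h1
    have h3 : ((c' : ℕ) : ℂ) = ((c : ℕ) : ℂ) := by linear_combination h2
    exact (Fin.ext (by exact_mod_cast h3)).symm
  have := Fintype.card_le_of_injective J hinj
  simp at this

theorem vl_smul {k : ℕ} (α : ℂ) (a : ℤ) (v : Fin k → ℤ) :
    vl α (fun l => a * v l) = (a : ℂ) * vl α v := by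
  unfold vl
  rw [Finset.mul_sum]
  refine Finset.sum_congr rfl fun l _ => ?_
  push_cast
  ring

/-- the algebra -/
theorem alg {m : ℕ} (i0 : Fin m) (u : Fin m → ℤ) (c d : ℕ) (hd : 1 ≤ d) (S B : Fin m → ℂ) (D : ℂ)
    (h : ∑ i, (u i : ℂ) * (S i * B i ^ d) = 0) :
    D ^ d * S i0 ^ (d - 1) * ∑ i, (((-((c : ℤ) + 2) * u i0) ^ (d - 1) *
      (if i = i0 then -((c : ℤ) + 1) * u i0 else u i) : ℤ) : ℂ) * (S i * B i ^ d) =
      (((-((c : ℤ) + 2) * u i0 : ℤ) : ℂ) * (D * (S i0 * B i0))) ^ d := by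
  classical
  have h1 : ∑ i, (((-((c : ℤ) + 2) * u i0) ^ (d - 1) *
      (if i = i0 then -((c : ℤ) + 1) * u i0 else u i) : ℤ) : ℂ) * (S i * B i ^ d) =
      (((-((c : ℤ) + 2) * u i0 : ℤ) : ℂ)) ^ (d - 1) * (((-((c : ℤ) + 2) * u i0 : ℤ) : ℂ) *
        (S i0 * B i0 ^ d)) := by
    have h2 : ∀ i, (((-((c : ℤ) + 2) * u i0) ^ (d - 1) *
      (if i = i0 then -((c : ℤ) + 1) * u i0 else u i) : ℤ) : ℂ) * (S i * B i ^ d) =
      (((-((c : ℤ) + 2) * u i0 : ℤ) : ℂ)) ^ (d - 1) * ((u i : ℂ) * (S i * B i ^ d)) +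
      (((-((c : ℤ) + 2) * u i0 : ℤ) : ℂ)) ^ (d - 1) * (if i = i0 then
        (((-((c : ℤ) + 2) * u i0 : ℤ) : ℂ)) * (S i * B i ^ d) else 0) := by
      intro i
      by_cases hi : i = i0
      · subst hi
        rw [if_pos rfl, if_pos rfl]
        push_cast
        ring
      · rw [if_neg hi, if_neg hi]
        push_cast
        ring
    rw [Finset.sum_congr rfl fun i _ => h2 i, Finset.sum_add_distrib, ← Finset.mul_sum, h,
      ← Finset.mul_sum, Finset.sum_ite_eq' Finset.univ i0, if_pos (Finset.mem_univ _)]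
    ring
  rw [h1]
  obtain ⟨e, rfl⟩ : ∃ e, d = e + 1 := ⟨d - 1, by omega⟩
  rw [Nat.add_sub_cancel]
  ring

theorem abs_A {c m w : ℕ} (hc : c < 2 ^ m + 1) {x : ℤ} (hx : |x| ≤ 2 ^ w) :
    |(-((c : ℤ) + 2)) * x| ≤ 2 ^ (m + 2 + w) := by
  rw [abs_mul, abs_neg]
  have h1 : |((c : ℤ) + 2)| ≤ 2 ^ (m + 2) := by
    rw [abs_of_nonneg (by positivity)]
    have h2 : (c : ℤ) < 2 ^ m + 1 := by exact_mod_cast hc
    have h3 : (1 : ℤ) ≤ 2 ^ m := one_le_pow₀ (by norm_num)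
    rw [pow_add]
    norm_num
    linarith
  rw [pow_add _ (m + 2) w]
  exact mul_le_mul h1 hx (abs_nonneg _) (by positivity)

theorem abs_A' {c m w : ℕ} (hc : c < 2 ^ m + 1) {x : ℤ} (hx : |x| ≤ 2 ^ w) :
    |(-((c : ℤ) + 1)) * x| ≤ 2 ^ (m + 2 + w) := by
  rw [abs_mul, abs_neg]
  have h1 : |((c : ℤ) + 1)| ≤ 2 ^ (m + 2) := by
    rw [abs_of_nonneg (by positivity)]
    have h2 : (c : ℤ) < 2 ^ m + 1 := by exact_mod_cast hc
    have h3 : (1 : ℤ) ≤ 2 ^ m := one_le_pow₀ (by norm_num)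
    rw [pow_add]
    norm_num
    linarith
  rw [pow_add _ (m + 2) w]
  exact mul_le_mul h1 hx (abs_nonneg _) (by positivity)

theorem cst0 (h : S_cstP) : S_cst0 := by
  classical
  intro Y hY ι T hT κ C m b s d w u hd hw hdl hu hall
  by_cases hm : m = 0
  · subst hm
    exact ⟨T, Eventually.of_forall fun _ => subset_rfl, hT, fun i => i.elim0⟩
  obtain ⟨i0⟩ : Nonempty (Fin m) := ⟨⟨0, Nat.pos_of_ne_zero hm⟩⟩
  have hc : ∀ᶠ ν in (Uf : Filter ℕ), ∀ τ ∈ T ν, ∃ c : Fin (2 ^ m + 1), ∀ J : Finset (Fin m),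
      ∑ i ∈ J, (u ν i : ℂ) * (s ν τ i * b ν τ i ^ d ν) ≠
        (((c : ℕ) : ℂ) + 1) * ((u ν i0 : ℂ) * (s ν τ i0 * b ν τ i0 ^ d ν)) := by
    filter_upwards [hu, hall] with ν h1 h2 τ hτ
    refine exists_c i0 (fun i => (u ν i : ℂ) * (s ν τ i * b ν τ i ^ d ν))
      (mul_ne_zero ?_ (mul_ne_zero ?_ (pow_ne_zero _ ?_)))
    · exact_mod_cast (h1 i0).1
    · exact ((h2 τ hτ).1 i0).2
    · exact ((h2 τ hτ).1 i0).1
  let f : ℕ → ι → Fin (2 ^ m + 1) := fun ν τ =>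
    if hh : ∃ c : Fin (2 ^ m + 1), ∀ J : Finset (Fin m),
      ∑ i ∈ J, (u ν i : ℂ) * (s ν τ i * b ν τ i ^ d ν) ≠
        (((c : ℕ) : ℂ) + 1) * ((u ν i0 : ℂ) * (s ν τ i0 * b ν τ i0 ^ d ν))
    then hh.choose else 0
  obtain ⟨T1, t1, t2, t3⟩ := hT.fiber f (fun _ => Finset.univ)
    (Eventually.of_forall fun _ _ _ => Finset.mem_univ _) (Few.const hY _)
  obtain ⟨c, hc1⟩ : ∃ c : Fin (2 ^ m + 1), ∀ᶠ ν in (Uf : Filter ℕ), ∀ τ ∈ T1 ν, f ν τ = c := by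
    apply ev_exists
    filter_upwards [t3, t2.nonempty] with ν h1 h2
    obtain ⟨τ0, hτ0⟩ := h2
    exact ⟨f ν τ0, fun τ hτ => h1 τ hτ τ0 hτ0⟩
  have hc2 : ∀ᶠ ν in (Uf : Filter ℕ), ∀ τ ∈ T1 ν, ∀ J : Finset (Fin m),
      ∑ i ∈ J, (u ν i : ℂ) * (s ν τ i * b ν τ i ^ d ν) ≠
        (((c : ℕ) : ℂ) + 1) * ((u ν i0 : ℂ) * (s ν τ i0 * b ν τ i0 ^ d ν)) := by
    filter_upwards [hc, t1, hc1] with ν h1 h2 h3 τ hτ
    have h4 := h1 τ (h2 hτ)
    have h5 : f ν τ = h4.choose := dif_pos h4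
    rw [← h3 τ hτ, h5]
    exact h4.choose_spec
  have hcl := c.isLt
  have H := h Y hY ι T1 t2 κ C m b s d
    (fun ν => (m + 2 + w ν) * (d ν + 1) + C * (Nat.log 2 (Y ν + 2) + 1)) d
    (fun ν i => (-(((c : ℕ) : ℤ) + 2) * u ν i0) ^ (d ν - 1) *
      (if i = i0 then -(((c : ℕ) : ℤ) + 1) * u ν i0 else u ν i)) hd
    ((((Few.const hY (m + 2)).add hY hw).mul (hd.add hY (Few.const hY 1))).add hY
      ((Few.const hY C).mul (few_log hY))) hd hdl hdl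
  refine (H ?_ ?_).elim fun T' hT' => ⟨T', ?_, hT'.2.1, hT'.2.2⟩
  rotate_left 2
  · filter_upwards [hT'.1, t1] with ν x y
    exact x.trans y
  · filter_upwards [hu, hdl 1] with ν h1 h2 i
    have hA : -(((c : ℕ) : ℤ) + 2) * u ν i0 ≠ 0 := by
      refine mul_ne_zero ?_ (h1 i0).1
      have : (0 : ℤ) ≤ ((c : ℕ) : ℤ) := Int.natCast_nonneg _
      omega
    have hB : -(((c : ℕ) : ℤ) + 1) * u ν i0 ≠ 0 := by
      refine mul_ne_zero ?_ (h1 i0).1
      have : (0 : ℤ) ≤ ((c : ℕ) : ℤ) := Int.natCast_nonneg _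
      omega
    have hX : |(if i = i0 then -(((c : ℕ) : ℤ) + 1) * u ν i0 else u ν i)| ≤
        2 ^ (m + 2 + w ν) := by
      split_ifs
      · exact abs_A' hcl (h1 i0).2
      · exact (h1 i).2.trans (pow_le_pow_right₀ (by norm_num) (by omega))
    refine ⟨mul_ne_zero (pow_ne_zero _ hA) ?_, ?_⟩
    · split_ifs
      · exact hB
      · exact (h1 i).1
    · rw [abs_mul, abs_pow]
      have h3 : |(-(((c : ℕ) : ℤ) + 2)) * u ν i0| ^ (d ν - 1) ≤
          (2 ^ (m + 2 + w ν)) ^ (d ν - 1) :=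
        pow_le_pow_left₀ (abs_nonneg _) (abs_A hcl (h1 i0).2) _
      refine (mul_le_mul h3 hX (abs_nonneg _) (by positivity)).trans ?_
      rw [← pow_succ, ← pow_mul]
      refine pow_le_pow_right₀ (by norm_num) ?_
      refine le_trans (Nat.mul_le_mul_left _ (by omega)) (Nat.le_add_right _ _)
  · filter_upwards [hu, hall, hc2, t1, hdl 1] with ν h1 h2 h3 h4 h5 τ hτ
    obtain ⟨g1, g2, g3, ⟨Q⟩⟩ := h2 τ (h4 hτ)
    have hA : -(((c : ℕ) : ℤ) + 2) * u ν i0 ≠ 0 := by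
      refine mul_ne_zero ?_ (h1 i0).1
      have : (0 : ℤ) ≤ ((c : ℕ) : ℤ) := Int.natCast_nonneg _
      omega
    refine ⟨g1, ?_, ?_⟩
    · intro J hJ
      have e1 : ∑ i ∈ J, (((-(((c : ℕ) : ℤ) + 2) * u ν i0) ^ (d ν - 1) *
          (if i = i0 then -(((c : ℕ) : ℤ) + 1) * u ν i0 else u ν i) : ℤ) : ℂ) *
          (s ν τ i * b ν τ i ^ d ν) = (((-(((c : ℕ) : ℤ) + 2) * u ν i0 : ℤ) : ℂ)) ^ (d ν - 1) *
          ∑ i ∈ J, (((if i = i0 then -(((c : ℕ) : ℤ) + 1) * u ν i0 else u ν i : ℤ)) : ℂ) *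
          (s ν τ i * b ν τ i ^ d ν) := by
        rw [Finset.mul_sum]
        refine Finset.sum_congr rfl fun i _ => ?_
        push_cast
        ring
      rw [e1]
      refine mul_ne_zero (pow_ne_zero _ (by exact_mod_cast hA)) ?_
      by_cases hi : i0 ∈ J
      · rw [← Finset.add_sum_erase J _ hi, if_pos rfl]
        have e2 : ∑ i ∈ J.erase i0, (((if i = i0 then -(((c : ℕ) : ℤ) + 1) * u ν i0
            else u ν i : ℤ)) : ℂ) * (s ν τ i * b ν τ i ^ d ν) =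
            ∑ i ∈ J.erase i0, (u ν i : ℂ) * (s ν τ i * b ν τ i ^ d ν) := by
          refine Finset.sum_congr rfl fun i hi => ?_
          rw [if_neg (Finset.ne_of_mem_erase hi)]
        rw [e2]
        intro hcon
        apply h3 τ hτ (J.erase i0)
        push_cast at hcon
        linear_combination hcon
      · have e2 : ∑ i ∈ J, (((if i = i0 then -(((c : ℕ) : ℤ) + 1) * u ν i0
            else u ν i : ℤ)) : ℂ) * (s ν τ i * b ν τ i ^ d ν) =
            ∑ i ∈ J, (u ν i : ℂ) * (s ν τ i * b ν τ i ^ d ν) := by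
          refine Finset.sum_congr rfl fun i hi' => ?_
          rw [if_neg (show ¬ i = i0 from fun hh => hi (hh ▸ hi'))]
        rw [e2]
        exact g3 J hJ (fun hh => hi (hh ▸ Finset.mem_univ _))
    · refine ⟨{ Q with v0 := Q.vs i0, v0bd := Q.vsbd i0, ev0 := ?_ }, 1,
        fun l => (-(((c : ℕ) : ℤ) + 2) * u ν i0) * Q.vp i0 l, le_rfl, Q.hk1.trans Q.hk, ?_, ?_⟩
      · rw [Q.evs]
        exact mul_ne_zero Q.mu0 (g1 i0).2
      · intro l
        show |(-(((c : ℕ) : ℤ) + 2) * u ν i0) * Q.vp i0 l| ≤ _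
        rw [abs_mul]
        refine (mul_le_mul (abs_A hcl (h1 i0).2) ((Q.vpbd i0 l).trans (pow_le_two_pow _ _))
          (abs_nonneg _) (by positivity)).trans ?_
        rw [← pow_add]
        refine pow_le_pow_right₀ (by norm_num) ?_
        refine Nat.add_le_add_right ?_ _
        exact Nat.le_mul_of_pos_right _ (by omega)
      · show ((Q.D : ℂ) ^ d ν * vl Q.α (Q.vs i0) ^ (d ν - 1) * ∑ i,
          (((-(((c : ℕ) : ℤ) + 2) * u ν i0) ^ (d ν - 1) *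
          (if i = i0 then -(((c : ℕ) : ℤ) + 1) * u ν i0 else u ν i) : ℤ) : ℂ) *
          (vl Q.α (Q.vs i) * vl Q.α (Q.vb i) ^ d ν)) ^ 1 = vl Q.α (fun l =>
            (-(((c : ℕ) : ℤ) + 2) * u ν i0) * Q.vp i0 l) ^ d ν
        rw [vl_smul, Q.evp, pow_one]
        refine alg i0 (u ν) (c : ℕ) (d ν) h5 (fun i => vl Q.α (Q.vs i))
          (fun i => vl Q.α (Q.vb i)) (Q.D : ℂ) ?_
        have e3 : ∑ i, (u ν i : ℂ) * (vl Q.α (Q.vs i) * vl Q.α (Q.vb i) ^ d ν) =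
            Q.mu * Q.lam ^ d ν * ∑ i, (u ν i : ℂ) * (s ν τ i * b ν τ i ^ d ν) := by
          rw [Finset.mul_sum]
          refine Finset.sum_congr rfl fun i _ => ?_
          rw [Q.evs, Q.evb]
          ring
        show ∑ i, (u ν i : ℂ) * (vl Q.α (Q.vs i) * vl Q.α (Q.vb i) ^ d ν) = 0
        rw [e3, g2, mul_zero]

end Pool.Agent.N323.HC
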